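import Pool.Agent.helper5.LDH.Spec

set_option autoImplicit false

open Complex MeasureTheory

namespace Pool.Agent.LDH

open Pool.Agent.helper84.DM Pool.Agent.helper78.ED Pool.Agent.DH

lemma MOL_norm (X Y k : ℕ) : ‖cY X Y k‖ ≤ d k := by
  unfold cY d
  refine (norm_sum_le _ _).trans ?_
  refine (Finset.sum_le_card_nsmul _ _ (1 : ℝ) ?_).trans (le_of_eq ?_)
  · intro m _
    split_ifs
    · have h := ArithmeticFunction.abs_moebius_le_one (n := m)
      rw [← Int.cast_le (R := ℝ)] at h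
      rw [Complex.norm_intCast]
      push_cast at h ⊢
      exact h
    · rw [norm_zero]; exact zero_le_one
  · rw [nsmul_eq_mul, mul_one]

lemma MOL_one {X Y : ℕ} (hX : 1 ≤ X) (hXY : X ≤ Y) : cY X Y 1 = 1 := by
  unfold cY
  rw [Nat.divisors_one, Finset.sum_singleton, if_pos ⟨hX, by simpa using hX.trans hXY⟩]
  simp

lemma MOL_zero {X Y k : ℕ} (hXY : X ≤ Y) (hk : 1 < k) (hkX : k ≤ X) : cY X Y k = 0 := by
  unfold cY
  have h1 : ∀ m ∈ k.divisors, (if m ≤ X ∧ k / m ≤ Y then ((ArithmeticFunction.moebius m : ℤ) : ℂ) else 0) =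
      ((ArithmeticFunction.moebius m : ℤ) : ℂ) := by
    intro m hm
    have h2 := Nat.divisor_le hm
    have h3 : k / m ≤ k := Nat.div_le_self _ _
    rw [if_pos ⟨h2.trans hkX, h3.trans (hkX.trans hXY)⟩]
  rw [Finset.sum_congr rfl h1, ← Int.cast_sum]
  have h2 : ∑ m ∈ k.divisors, ArithmeticFunction.moebius m = 0 := by
    have h3 := ArithmeticFunction.coe_mul_zeta_apply (f := ArithmeticFunction.moebius) (x := k)
    rw [← h3, ArithmeticFunction.moebius_mul_coe_zeta, ArithmeticFunction.one_apply_ne (by omega)]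
  rw [h2, Int.cast_zero]

theorem MOL : MOL_stmt := by
  intro X Y hX hXY
  refine ⟨fun k => MOL_norm X Y k, fun s => ?_⟩
  have hXXY : X ≤ X * Y := Nat.le_mul_of_pos_right X (by omega)
  have key : (∑ m ∈ Finset.Icc 1 X, ((ArithmeticFunction.moebius m : ℤ) : ℂ) * (m : ℂ) ^ (-s)) *
      (∑ n ∈ Finset.Icc 1 Y, (n : ℂ) ^ (-s)) = ∑ k ∈ Finset.Icc 1 (X * Y), cY X Y k * (k : ℂ) ^ (-s) := by
    rw [Finset.sum_mul_sum, ← Finset.sum_product']
    have h1 : ∀ k ∈ Finset.Icc 1 (X * Y), cY X Y k * (k : ℂ) ^ (-s) =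
        ∑ m ∈ k.divisors.filter (fun m => m ≤ X ∧ k / m ≤ Y), ((ArithmeticFunction.moebius m : ℤ) : ℂ) * (k : ℂ) ^ (-s) := by
      intro k _
      unfold cY
      rw [Finset.sum_filter, Finset.sum_mul]
      refine Finset.sum_congr rfl fun m _ => ?_
      split_ifs
      · rfl
      · rw [zero_mul]
    rw [Finset.sum_congr rfl h1, Finset.sum_sigma']
    refine Finset.sum_nbij' (fun p => ⟨p.1 * p.2, p.1⟩) (fun q => (q.2, q.1 / q.2)) ?_ ?_ ?_ ?_ ?_
    · rintro ⟨m, n⟩ h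
      simp only [Finset.mem_product, Finset.mem_Icc] at h
      obtain ⟨⟨h1, h2⟩, h3, h4⟩ := h
      simp only [Finset.mem_sigma, Finset.mem_Icc, Finset.mem_filter, Nat.mem_divisors]
      have hm0 : 0 < m := h1
      refine ⟨⟨Nat.mul_pos hm0 h3, Nat.mul_le_mul h2 h4⟩, ⟨Dvd.intro _ rfl, ?_⟩, h2, ?_⟩
      · exact (Nat.mul_pos hm0 h3).ne'
      · rw [Nat.mul_div_cancel_left _ hm0]; exact h4
    · rintro ⟨k, m⟩ h
      simp only [Finset.mem_sigma, Finset.mem_Icc, Finset.mem_filter, Nat.mem_divisors] at h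
      obtain ⟨⟨h1, h2⟩, ⟨h3, h4⟩, h5, h6⟩ := h
      simp only [Finset.mem_product, Finset.mem_Icc]
      have hm0 : 0 < m := Nat.pos_of_dvd_of_pos h3 h1
      exact ⟨⟨hm0, h5⟩, Nat.div_pos (Nat.le_of_dvd h1 h3) hm0, h6⟩
    · rintro ⟨m, n⟩ h
      simp only [Finset.mem_product, Finset.mem_Icc] at h
      have hm0 : 0 < m := h.1.1
      simp only [Nat.mul_div_cancel_left _ hm0]
    · rintro ⟨k, m⟩ h
      simp only [Finset.mem_sigma, Finset.mem_Icc, Finset.mem_filter, Nat.mem_divisors] at h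
      simp only [Nat.mul_div_cancel' h.2.1.1]
    · rintro ⟨m, n⟩ h
      simp only
      rw [Nat.cast_mul, Complex.natCast_mul_natCast_cpow, mul_assoc]
  rw [key]
  have h2 : Finset.Icc 1 (X * Y) = insert 1 (Finset.Ioc 1 X ∪ Finset.Ioc X (X * Y)) := by
    ext k
    simp only [Finset.mem_Icc, Finset.mem_insert, Finset.mem_union, Finset.mem_Ioc]
    omega
  rw [h2, Finset.sum_insert (by simp; omega), Finset.sum_union]
  · have h3 : ∑ k ∈ Finset.Ioc 1 X, cY X Y k * (k : ℂ) ^ (-s) = 0 := by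
      refine Finset.sum_eq_zero fun k hk => ?_
      rw [Finset.mem_Ioc] at hk
      rw [MOL_zero hXY hk.1 hk.2, zero_mul]
    rw [h3, zero_add, MOL_one hX hXY, Nat.cast_one, Complex.one_cpow, mul_one]
  · rw [Finset.disjoint_left]
    intro k h3 h4
    rw [Finset.mem_Ioc] at h3 h4
    omega

end Pool.Agent.LDH
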